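import Pool.Agent.N410.LD.TotalParts
import Pool.Agent.N410.LD.Tame

/-!
# List total colourings and the degrees of the neighbours of the large vertices

Let `G` have maximum degree `D`. We show `χ''(G) = ch''(G) = D + 1` (so the list total colouring
conjecture and the total colouring conjecture hold for `G`) if, for some `k`, the vertices of degree
more than `k` have not too many neighbours of degree more than `k`; precise forms below.
-/

set_option autoImplicit false

namespace Pool.Agent.Results.MP_16dc44_co.LocalDegreesTotal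

/-- `c` is a proper total colouring of `G` -/
def IsTotalColouring {V C : Type} (G : SimpleGraph V) (c : V ⊕ G.edgeSet → C) : Prop :=
  (∀ u v : V, G.Adj u v → c (Sum.inl u) ≠ c (Sum.inl v)) ∧
  (∀ e f : G.edgeSet, e ≠ f → (∃ v : V, v ∈ (e : Sym2 V) ∧ v ∈ (f : Sym2 V)) →
      c (Sum.inr e) ≠ c (Sum.inr f)) ∧
  (∀ (v : V) (e : G.edgeSet), v ∈ (e : Sym2 V) → c (Sum.inl v) ≠ c (Sum.inr e))

/-- The vertices and edges of `G` can be properly coloured from all lists of at least `k`
colours. -/
def TotalChoosable {V : Type} (G : SimpleGraph V) (k : ℕ) : Prop :=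
  ∀ L : V ⊕ G.edgeSet → Finset ℕ, (∀ x, k ≤ (L x).card) →
    ∃ c : V ⊕ G.edgeSet → ℕ, (∀ x, c x ∈ L x) ∧ IsTotalColouring G c

/-- The number of neighbours of `v`. -/
noncomputable def deg {V : Type} (G : SimpleGraph V) (v : V) : ℕ := (G.neighborSet v).ncard

/-- The number of neighbours of `v` in `W`. -/
noncomputable def degIn {V : Type} (G : SimpleGraph V) (W : Set V) (v : V) : ℕ :=
  (G.neighborSet v ∩ W).ncard

/-- The error term `K (1 + log D) √(D log M)`. -/
noncomputable def slack (K : ℝ) (M D : ℕ) : ℝ :=
  K * (1 + Real.log D) * Real.sqrt (D * Real.log M)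

/-- There is a constant `K` and for every `ε > 0` there is `n₀` such that the following holds for
every finite simple graph `G` all of whose degrees are at most `D`. Each of the conditions (1), (2),
(3) implies that `G` has a proper total colouring from all lists of `D + 1` colours and, if `D` is
the maximum degree of `G`, that `χ''(G) = ch''(G) = D + 1`.

(1) There are `k ≤ D / 2` and `M` such that every vertex of degree more than `k` has at most `D - k`
neighbours of degree more than `k`, the components of the graph `F` induced by the vertices of degree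
more than `k` have at most `M` vertices, and `D + 1 ≤ 3 k`, or `K (√(D log M) + log M) + 1 ≤ k`, or
`M ≥ n₀` and `ε √(M log M) + 1 ≤ k`.

In (2) and (3) the components of `G` have at most `M` vertices and `s = K (1 + log D) √(D log M)`.

(2) There is a number `k` such that every vertex of degree at most `k` has at most `D - k - s - 1`
neighbours of degree more than `k`, and every vertex of degree more than `k` has at most `D - s - 1`
and at most `k + s + 1` neighbours of degree more than `k`.

(3) There is a set `W` of vertices such that, for the graph `F` of the edges inside `W` and the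
graph `H` of the edges `u v` outside `W` with `deg u + deg v ≥ D + 1`, with `dW` = number of
neighbours in `W`,
* `F` can be totally coloured from all lists of `D + 1` colours, or all its degrees are at most
  `(2 D - 1) / 3`, or all its degrees are at most `D - s - 1`;
* an edge `u w` with `u` outside and `w` in `W` satisfies `dW u + dW w ≤ D`;
* `deg u + dW u ≤ D` for all vertices `u` outside `W`;
* all edges `u v` of `H` satisfy `dW u + dW v + degH u + s + 1 ≤ D` (in both orders). -/
theorem result : ∃ K : ℝ, ∀ ε : ℝ, 0 < ε → ∃ n₀ : ℕ, ∀ (V : Type) [Fintype V]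
    (G : SimpleGraph V) (D : ℕ), (∀ v, deg G v ≤ D) →
    ((∃ (k M : ℕ) (F : SimpleGraph V), 2 * k ≤ D ∧
        (∀ u v, F.Adj u v ↔ G.Adj u v ∧ k < deg G u ∧ k < deg G v) ∧
        (∀ v, {w | F.Reachable v w}.ncard ≤ M) ∧
        (∀ v, k < deg G v → degIn G {w | k < deg G w} v + k ≤ D) ∧
        (D + 1 ≤ 3 * k ∨ K * (Real.sqrt (D * Real.log M) + Real.log M) + 1 ≤ k ∨
          n₀ ≤ M ∧ ε * Real.sqrt (M * Real.log M) + 1 ≤ k)) ∨
      (∃ M : ℕ, (∀ v, {w | G.Reachable v w}.ncard ≤ M) ∧
        ((∃ k : ℕ,
          (∀ v, deg G v ≤ k →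
            (degIn G {w | k < deg G w} v : ℝ) + k + slack K M D + 1 ≤ D) ∧
          (∀ v, k < deg G v →
            (degIn G {w | k < deg G w} v : ℝ) + slack K M D + 1 ≤ D ∧
            (degIn G {w | k < deg G w} v : ℝ) ≤ k + slack K M D + 1)) ∨
        (∃ (W : Set V) (F H : SimpleGraph V),
          (∀ u v, F.Adj u v ↔ G.Adj u v ∧ u ∈ W ∧ v ∈ W) ∧
          (∀ u v, H.Adj u v ↔ G.Adj u v ∧ u ∉ W ∧ v ∉ W ∧ D + 1 ≤ deg G u + deg G v) ∧
          (TotalChoosable F (D + 1) ∨ (∀ v, 3 * deg F v + 1 ≤ 2 * D) ∨
            ∀ v, (deg F v : ℝ) + slack K M D + 1 ≤ D) ∧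
          (∀ u w, G.Adj u w → u ∉ W → w ∈ W → degIn G W u + degIn G W w ≤ D) ∧
          (∀ u, u ∉ W → deg G u + degIn G W u ≤ D) ∧
          ∀ u v, H.Adj u v →
            (degIn G W u : ℝ) + degIn G W v + deg H u + slack K M D + 1 ≤ D)))) →
    TotalChoosable G (D + 1) ∧ ((∃ v, deg G v = D) → ∀ k : ℕ,
      ((∃ c : V ⊕ G.edgeSet → Fin k, IsTotalColouring G c) ↔ D + 1 ≤ k) ∧
      (TotalChoosable G k ↔ D + 1 ≤ k)) := by
  classical
  obtain ⟨K₁, hK₁, hloc⟩ := Pool.Agent.N410.LD.local_sqrt
  obtain ⟨K₂, hK₂, htame⟩ := Pool.Agent.N410.LD.ch_tame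
  refine ⟨max K₁ K₂, fun ε hε => ?_⟩
  obtain ⟨n₀, hn⟩ := htame ε hε
  refine ⟨n₀, ?_⟩
  intro V _ G D hD hyp
  have hch : ∀ (F : SimpleGraph V) (l : ℕ), TotalChoosable F l ↔ Pool.Agent.N410.LD.TC F l :=
    fun F l => Pool.Agent.N410.LD.tc_iff F l
  have hdeg : ∀ (F : SimpleGraph V) (v : V), deg F v = Pool.Agent.TH559.LE.dg F v :=
    fun _ _ => rfl
  have hsub : ∀ F : SimpleGraph V, F ≤ G → ∀ v, deg F v ≤ D := fun F hF v =>
    (Pool.Agent.TH559.LE.dg_mono hF v).trans (hD v)
  have hs : ∀ M : ℕ, Pool.Agent.N410.LD.slk K₁ M D ≤ slack (max K₁ K₂) M D := by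
    intro M
    unfold slack Pool.Agent.N410.LD.slk
    have h1 : 0 ≤ Real.log D := Real.log_natCast_nonneg _
    have h2 : 0 ≤ Real.sqrt (D * Real.log M) := Real.sqrt_nonneg _
    apply mul_le_mul_of_nonneg_right _ h2
    exact mul_le_mul_of_nonneg_right (le_max_left _ _) (by linarith)
  have hs0 : ∀ M : ℕ, 0 ≤ slack (max K₁ K₂) M D := by
    intro M
    refine le_trans ?_ (hs M)
    unfold Pool.Agent.N410.LD.slk
    have h1 : 0 ≤ Real.log D := Real.log_natCast_nonneg _
    have h2 : 0 ≤ Real.sqrt (D * Real.log M) := Real.sqrt_nonneg _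
    have h3 : 0 ≤ K₁ * (1 + Real.log D) := mul_nonneg (by linarith) (by linarith)
    exact mul_nonneg h3 h2
  -- from edge colourings with two colours less to total colourings
  have hedge : ∀ F : SimpleGraph V, F ≤ G → Pool.Agent.TH559.LE.Choosable F (D - 1) →
      TotalChoosable F (D + 1) := by
    intro F hF h
    rw [hch]
    apply Pool.Agent.N410.LD.tc_of_edges F (D + 1)
    · intro v
      have := hsub F hF v
      rw [hdeg] at this
      omega
    · intro L hL
      rw [Pool.Agent.TH559.LE.choosable_iff] at h
      apply h L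
      intro u v huv
      have := hL u v huv
      omega
  have hconc : TotalChoosable G (D + 1) → TotalChoosable G (D + 1) ∧
      ((∃ v, deg G v = D) → ∀ k : ℕ,
        ((∃ c : V ⊕ G.edgeSet → Fin k, IsTotalColouring G c) ↔ D + 1 ≤ k) ∧
        (TotalChoosable G k ↔ D + 1 ≤ k)) := by
    intro hT
    refine ⟨hT, ?_⟩
    rintro ⟨v, hv⟩ k
    have h1 : (∃ c : V ⊕ G.edgeSet → Fin k, IsTotalColouring G c) → D + 1 ≤ k :=
      Pool.Agent.H162R2.Sparse.total_lower G D v hv k
    have h2 : D + 1 ≤ k → TotalChoosable G k := by
      intro hk L hL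
      exact hT L (fun x => hk.trans (hL x))
    have h3 : TotalChoosable G k → (∃ c : V ⊕ G.edgeSet → Fin k, IsTotalColouring G c) := by
      intro h
      obtain ⟨c, hc1, hc2, hc3, hc4⟩ := h (fun _ => Finset.range k) (fun _ => by simp)
      refine ⟨fun x => ⟨c x, Finset.mem_range.1 (hc1 x)⟩, ?_, ?_, ?_⟩
      · intro u w huw h
        exact hc2 u w huw (Fin.mk.inj_iff.1 h)
      · intro e f hef hx h
        exact hc3 e f hef hx (Fin.mk.inj_iff.1 h)
      · intro w e hw h
        exact hc4 w e hw (Fin.mk.inj_iff.1 h)
    exact ⟨⟨h1, fun h => h3 (h2 h)⟩, ⟨fun h => h1 (h3 h), h2⟩⟩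
  apply hconc
  rcases hyp with ⟨k, M, F, h2k, hF, hM, hk, hcase⟩ | ⟨M, hM, hyp⟩
  · -- (1)
    have hFG : F ≤ G := fun a b h => ((hF a b).1 h).1
    by_cases hV : IsEmpty V
    · intro L _
      have : IsEmpty (V ⊕ G.edgeSet) := by
        refine ⟨fun x => ?_⟩
        rcases x with v | ⟨e, he⟩
        · exact hV.false v
        · induction e using Sym2.ind with
          | _ u v => exact hV.false u
      exact ⟨fun x => (this.false x).elim, fun x => (this.false x).elim,
        fun u => (hV.false u).elim, fun e => (this.false (Sum.inr e)).elim,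
        fun v => (hV.false v).elim⟩
    have hkD : k ≤ D := by omega
    have hFd : ∀ v, deg F v ≤ D - k := by
      intro v
      by_cases hv : k < deg G v
      · have h3 := hk v hv
        have h4 : deg F v = degIn G {w | k < deg G w} v := by
          unfold deg degIn
          congr 1
          ext w
          simp only [SimpleGraph.mem_neighborSet, Set.mem_inter_iff, hF, Set.mem_ofPred_eq]
          tauto
        omega
      · have h4 : deg F v = 0 := by
          unfold deg
          rw [Set.ncard_eq_zero (Set.toFinite _)]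
          ext w
          simp only [SimpleGraph.mem_neighborSet, Set.mem_empty_iff_false, iff_false]
          intro h
          exact hv ((hF v w).1 h).2.1
        omega
    have hcF : TotalChoosable F (D + 1) := by
      by_cases hk0 : k = 0
      · -- then `D = 0`
        exfalso
        subst hk0
        rcases hcase with h | h | ⟨_, h⟩
        · omega
        · have h1 : 0 ≤ Real.log M := Real.log_natCast_nonneg _
          have h2 : 0 ≤ Real.sqrt (D * Real.log M) := Real.sqrt_nonneg _
          have h3 : 0 ≤ max K₁ K₂ * (Real.sqrt (D * Real.log M) + Real.log M) :=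
            mul_nonneg ((by linarith : (0 : ℝ) ≤ K₁).trans (le_max_left _ _)) (by linarith)
          push_cast at h
          linarith
        · have h2 : 0 ≤ ε * Real.sqrt (M * Real.log M) := mul_nonneg hε.le (Real.sqrt_nonneg _)
          push_cast at h
          linarith
      have hD1 : 1 ≤ D := by omega
      apply hedge F hFG
      apply hn V F (D - 1)
      intro v
      refine ⟨D - k, M, fun w => ?_, hM v, ?_⟩
      · refine le_trans ?_ (hFd w)
        exact Set.ncard_le_ncard (fun x hx => hx.1) (Set.toFinite _)
      · have hc1 : ((D - k : ℕ) : ℝ) = (D : ℝ) - k := Nat.cast_sub hkD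
        have hc2 : ((D - 1 : ℕ) : ℝ) = (D : ℝ) - 1 := by
          rw [Nat.cast_sub hD1]; norm_num
        rcases hcase with h | h | ⟨h, h'⟩
        · left
          omega
        · right; left
          rw [hc1, hc2]
          have h3 : Real.sqrt (((D : ℝ) - k) * Real.log M) ≤ Real.sqrt (D * Real.log M) := by
            apply Real.sqrt_le_sqrt
            apply mul_le_mul_of_nonneg_right _ (Real.log_natCast_nonneg _)
            have : (0 : ℝ) ≤ k := Nat.cast_nonneg _
            linarith
          have h0 : 0 ≤ Real.sqrt (D * Real.log M) + Real.log M :=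
            add_nonneg (Real.sqrt_nonneg _) (Real.log_natCast_nonneg _)
          have h4 : K₂ * (Real.sqrt (((D : ℝ) - k) * Real.log M) + Real.log M) ≤
              K₂ * (Real.sqrt (D * Real.log M) + Real.log M) := by
            apply mul_le_mul_of_nonneg_left _ (by linarith)
            linarith
          have h5 : K₂ * (Real.sqrt (D * Real.log M) + Real.log M) ≤
              max K₁ K₂ * (Real.sqrt (D * Real.log M) + Real.log M) :=
            mul_le_mul_of_nonneg_right (le_max_right _ _) h0
          linarith
        · right; right; left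
          refine ⟨h, ?_⟩
          rw [hc1, hc2]
          linarith
    rw [hch] at hcF ⊢
    refine Pool.Agent.N410.LD.of_parts_total G F ⊥ {w | k < deg G w} D hD hF ?_ ?_ ?_ hcF ?_
    · intro u v
      simp only [SimpleGraph.bot_adj, false_iff, not_and]
      rintro - h3 h4 h5
      simp only [Set.mem_ofPred_eq, not_lt] at h3 h4
      rw [← hdeg, ← hdeg] at h5
      omega
    · intro u w huw hu hw
      have h3 := hk w hw
      have h4 : degIn G {w | k < deg G w} u ≤ deg G u :=
        Set.ncard_le_ncard Set.inter_subset_left (Set.toFinite _)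
      simp only [Set.mem_ofPred_eq, not_lt] at hu
      unfold degIn at h3 h4
      omega
    · intro u hu
      have h4 : degIn G {w | k < deg G w} u ≤ deg G u :=
        Set.ncard_le_ncard Set.inter_subset_left (Set.toFinite _)
      simp only [Set.mem_ofPred_eq, not_lt] at hu
      unfold degIn at h4
      rw [← hdeg]
      omega
    · intro L' _
      exact Pool.Agent.TH559.LE.ok_bot L'
  have hreach : ∀ F : SimpleGraph V, F ≤ G → ∀ v, {w | F.Reachable v w}.ncard ≤ M := by
    intro F hF v
    refine le_trans (Set.ncard_le_ncard ?_ (Set.toFinite _)) (hM v)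
    intro w hw
    exact SimpleGraph.Reachable.mono hF hw
  have hlist : ∀ (F : SimpleGraph V) (L : Sym2 V → Finset ℕ), F ≤ G →
      (∀ u v, F.Adj u v → (deg F u : ℝ) + slack (max K₁ K₂) M D ≤ (L s(u, v)).card) →
      ∃ c, Pool.Agent.TH559.LE.Ok F L c := by
    intro F L hF hL
    apply hloc V F M D L (hsub F hF) (hreach F hF)
    intro u v huv
    have h1 := hL u v huv
    have h2 := hs M
    rw [← hdeg]
    linarith
  -- graphs with degrees at most `D - s - 1`
  have hlow : ∀ F : SimpleGraph V, F ≤ G →
      (∀ v, (deg F v : ℝ) + slack (max K₁ K₂) M D + 1 ≤ D) → TotalChoosable F (D + 1) := by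
    intro F hFG hF
    rw [hch]
    apply Pool.Agent.N410.LD.tc_of_edges F (D + 1)
    · intro v
      have := hsub F hFG v
      rw [hdeg] at this
      omega
    · intro L hL
      apply hlist F L hFG
      intro u v huv
      have h3 : ((D : ℝ) + 1) ≤ (L s(u, v)).card + 2 := by exact_mod_cast hL u v huv
      have h4 := hF u
      linarith
  -- (3)
  have h3 : ∀ (W : Set V) (F H : SimpleGraph V),
      (∀ u v, F.Adj u v ↔ G.Adj u v ∧ u ∈ W ∧ v ∈ W) →
      (∀ u v, H.Adj u v ↔ G.Adj u v ∧ u ∉ W ∧ v ∉ W ∧ D + 1 ≤ deg G u + deg G v) →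
      (TotalChoosable F (D + 1) ∨ (∀ v, 3 * deg F v + 1 ≤ 2 * D) ∨
        ∀ v, (deg F v : ℝ) + slack (max K₁ K₂) M D + 1 ≤ D) →
      (∀ u w, G.Adj u w → u ∉ W → w ∈ W → degIn G W u + degIn G W w ≤ D) →
      (∀ u, u ∉ W → deg G u + degIn G W u ≤ D) →
      (∀ u v, H.Adj u v →
        (degIn G W u : ℝ) + degIn G W v + deg H u + slack (max K₁ K₂) M D + 1 ≤ D) →
      TotalChoosable G (D + 1) := by
    intro W F H hF hH hcF hcross hout hl
    have hFG : F ≤ G := fun a b h => ((hF a b).1 h).1
    have hHG : H ≤ G := fun a b h => ((hH a b).1 h).1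
    have hcF' : TotalChoosable F (D + 1) := by
      rcases hcF with h | h | h
      · exact h
      · rcases Nat.eq_zero_or_pos D with hD0 | hDpos
        · intro L _
          have hV : ∀ v : V, False := fun v => by
            have := h v
            omega
          have : IsEmpty (V ⊕ F.edgeSet) := by
            refine ⟨fun x => ?_⟩
            rcases x with v | ⟨e, he⟩
            · exact hV v
            · induction e using Sym2.ind with
              | _ u v => exact hV u
          exact ⟨fun x => (this.false x).elim, fun x => (this.false x).elim,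
            fun u => (hV u).elim, fun e => (this.false (Sum.inr e)).elim,
            fun v => (hV v).elim⟩
        · apply hedge F hFG
          apply Pool.Agent.N410.LD.ch_three F ((2 * D - 1) / 3) (D - 1)
          · intro v
            have h1 := h v
            rw [hdeg] at h1
            omega
          · omega
      · exact hlow F hFG h
    rw [hch] at hcF' ⊢
    refine Pool.Agent.N410.LD.of_parts_total G F H W D hD hF hH hcross hout hcF' ?_
    intro L' hL'
    apply hlist H L' hHG
    intro u v huv
    have h3 := hl u v huv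
    have h4 : (D : ℝ) ≤ (L' s(u, v)).card + degIn G W u + degIn G W v + 1 := by
      exact_mod_cast hL' u v huv
    linarith
  rcases hyp with ⟨k, hk1, hk2⟩ | ⟨W, F, H, hF, hH, hcF, hcross, hout, hl⟩
  swap
  · exact h3 W F H hF hH hcF hcross hout hl
  -- (2)
  set W : Set V := {w | k < deg G w} with hW
  let F : SimpleGraph V :=
    { Adj := fun a b => G.Adj a b ∧ a ∈ W ∧ b ∈ W
      symm := ⟨fun a b h => ⟨h.1.symm, h.2.2, h.2.1⟩⟩
      loopless := ⟨fun a h => G.loopless.irrefl a h.1⟩ }
  let H : SimpleGraph V :=
    { Adj := fun a b => G.Adj a b ∧ a ∉ W ∧ b ∉ W ∧ D + 1 ≤ deg G a + deg G b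
      symm := ⟨fun a b h => ⟨h.1.symm, h.2.2.1, h.2.1, h.2.2.2.trans (Nat.add_comm _ _).le⟩⟩
      loopless := ⟨fun a h => G.loopless.irrefl a h.1⟩ }
  have hmem : ∀ v, v ∈ W ↔ k < deg G v := fun v => Iff.rfl
  by_cases hWne : W.Nonempty
  · refine h3 W F H (fun _ _ => Iff.rfl) (fun _ _ => Iff.rfl) ?_ ?_ ?_ ?_
    · right; right
      intro v
      by_cases hv : k < deg G v
      · have h3 := (hk2 v hv).1
        have h4 : deg F v = degIn G W v := by
          unfold deg degIn
          congr 1
          ext w
          show (G.Adj v w ∧ v ∈ W ∧ w ∈ W) ↔ _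
          simp only [SimpleGraph.mem_neighborSet, Set.mem_inter_iff, hmem]
          tauto
        rw [h4]
        exact h3
      · obtain ⟨w, hw⟩ := hWne
        have h3 := (hk2 w hw).1
        have h4 : deg F v = 0 := by
          unfold deg
          rw [Set.ncard_eq_zero (Set.toFinite _)]
          ext w
          simp only [SimpleGraph.mem_neighborSet, Set.mem_empty_iff_false, iff_false]
          intro h
          exact hv h.2.1
        rw [h4]
        have h5 : (0 : ℝ) ≤ degIn G W w := Nat.cast_nonneg _
        push_cast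
        linarith
    · intro u w huw hu hw
      have h3 := hk1 u (by rw [hmem] at hu; omega)
      have h4 := (hk2 w hw).2
      have h5 : ((degIn G W u + degIn G W w : ℕ) : ℝ) ≤ (D : ℕ) := by
        push_cast
        linarith
      exact_mod_cast h5
    · intro u hu
      have hu' : deg G u ≤ k := by rw [hmem] at hu; omega
      have h3 := hk1 u hu'
      have h4 : (deg G u : ℝ) ≤ k := by exact_mod_cast hu'
      have h6 := hs0 M
      have h5 : ((deg G u + degIn G W u : ℕ) : ℝ) ≤ (D : ℕ) := by
        push_cast
        linarith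
      exact_mod_cast h5
    · intro u v huv
      have hu : u ∉ W := huv.2.1
      have hv : v ∉ W := huv.2.2.1
      have h3 := hk1 v (by rw [hmem] at hv; omega)
      have h4 : deg H u + degIn G W u ≤ k := by
        have h5 : deg H u ≤ (G.neighborSet u \ W).ncard := by
          apply Set.ncard_le_ncard _ (Set.toFinite _)
          intro x hx
          exact ⟨hx.1, hx.2.2.1⟩
        have h6 : (G.neighborSet u \ W).ncard + (G.neighborSet u ∩ W).ncard = deg G u := by
          rw [add_comm]
          exact Set.ncard_inter_add_ncard_sdiff_eq_ncard _ _ (Set.toFinite _)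
        have h7 : deg G u ≤ k := by rw [hmem] at hu; omega
        unfold degIn
        omega
      have h5 : (deg H u : ℝ) + degIn G W u ≤ k := by exact_mod_cast h4
      linarith
  · -- all degrees are at most `k`
    have hall : ∀ v, deg G v ≤ k := by
      intro v
      by_contra hcon
      exact hWne ⟨v, (hmem v).2 (not_le.1 hcon)⟩
    apply hlow G le_rfl
    intro v
    have h3 := hk1 v (hall v)
    have h4 : (0 : ℝ) ≤ degIn G W v := Nat.cast_nonneg _
    have h5 : (deg G v : ℝ) ≤ k := by exact_mod_cast hall v
    linarith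

end Pool.Agent.Results.MP_16dc44_co.LocalDegreesTotal
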